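import Pool.Agent.Q194.LinSof.Neg2

/-!
# The threshold constant in the definition of linear sofic groups is `1/2`, over every field

The definitions are those of the problem (`Pool.Agent.Q194.LinSof.Defs`): `rankDist A B` is the
normalised rank distance `rank (A - B) / n` on `GL(n, K)`, and `Approximable K G ε` says that for
every finite `F ⊆ G` and every `δ > 0` there are `n ≥ 1` and `φ : G → GL(n, K)` with
`d(φ(g) φ(h), φ(g h)) < δ` for `g, h ∈ F` and `d(φ(g), φ(h)) > ε - δ` for distinct `g, h ∈ F`.

For every field `K`, of any characteristic, the class of `ε`-approximable countable groups is equal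
to the class of linear sofic groups over `K` (`ε = 1/4`) exactly for `ε ≤ 1/2`.

* If `ε ≤ 1/2`: replace `φ(g)` by `φ(g) ⊕ 1` and then iterate the conjugation representation on
  `End(V)`.  If all eigenspaces of `C` have relative dimension at most `M ≥ 1/2`, then those of
  the conjugation by `C` have relative dimension at most `M² + (1 - M)²`.
* If `ε > 1/2`: the groups `(ℤ/2)^m` are linear sofic, but not `ε`-approximable for large `m`.
-/

set_option autoImplicit false

namespace Pool.Agent.Results.MP_7f7a01_al.ThresholdHalf

open Pool.Agent.Q194.LinSof

universe u

/-- **The threshold constant of linear soficity.**  Let `K` be any field and `0 < ε` (in particular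
`1/4 < ε < 1`).  Every countable group is `ε`-approximable over `K` if and only if it is
`1/4`-approximable (linear sofic) over `K`, precisely when `ε ≤ 1/2`. -/
theorem result (K : Type u) [Field K] (ε : ℝ) (hε : 0 < ε) :
    (∀ (G : Type) [Group G] [Countable G], Approximable K G ε ↔ Approximable K G (1 / 4)) ↔
      ε ≤ 1 / 2 :=
  main K ε hε

end Pool.Agent.Results.MP_7f7a01_al.ThresholdHalf
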